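import Pool.Agent.MP_ae1fc5_gt.Main

/-!
# MP_ae1fc5_gt, Q2: negative answer

There are `ε > 0` and, for every `δ > 0`, a smooth metric `g` on the 3-sphere with scalar curvature
at least 6, with maximal Ricci flow existence time greater than `1/4 - δ`, and such that for every
diffeomorphism `φ` the pull-back `φ^* g` differs from the round metric by at least `ε` somewhere.
-/

set_option autoImplicit false

namespace Pool.Agent.Results.MP_ae1fc5_gt.CZeroInstability

open Pool.Agent.MP_ae1fc5_gt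
open scoped Quaternion

theorem result : ∃ ε : ℝ, 0 < ε ∧ ∀ δ : ℝ, 0 < δ → ∃ g : Field,
    IsMetric g ∧ (∀ x : ℍ[ℝ], ‖x‖ = 1 → 6 ≤ scal g x) ∧
    ((1 / 4 - δ : ℝ) : EReal) < maxTime g ∧
    ∀ φ : Diffeo, ∃ x : ℍ[ℝ], ‖x‖ = 1 ∧ ε ≤ pullDist φ g x := by
  obtain ⟨ε, hε, h⟩ := main
  exact ⟨ε, hε, fun δ hδ => h δ hδ⟩

end Pool.Agent.Results.MP_ae1fc5_gt.CZeroInstability
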