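import Pool.Agent.RFq.Final

/-!
# MP_ae1fc5_gt, Q1: negative answer

For every `D` and every `δ > 0` there is a smooth metric `g` on the 3-sphere with scalar curvature
at least 6 and maximal Ricci flow existence time greater than `1/4 - δ`, whose Gromov-Hausdorff
distance to the round sphere of curvature 1 is at least `D`.

The metrics are `g = V^(-2) g_round`, where `V` depends only on `y = Re x`; they are the round
metric with a long and very thin spike at each of the two poles: near the pole at distance `ρ`
(`ρ^2 = 1 + a - y^2`) one has `V = c ρ / (ρ + η)` with `a << η << 1`.

Proof.  In the conformal gauge the normalised Ricci flow is a scalar parabolic equation for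
`V(t,y)` (with the nonlocal term `J = int_0^y V_y^2`), degenerate at the poles.  Concavity
`V_yy <= 0` is preserved; `H = - V_yy (1-y^2)^(5/2) V^(-2)` satisfies `max H(t) <= e^(2t) max H(0)`,
so the metric stays almost round away from the poles; the curvature of the caps is controlled by the
barrier `v (w + c0 ...) <= 1 - β` (`v` is the curvature of the planes tangent to the orbits,
`w = (1-y^2)/V^2` the squared radius of the orbits): the spikes retract towards the round part like
a family of translating solutions, without singularity; then `V^3 V_yy` and its derivatives are
bounded by the maximum principle.  Local existence is proved with a Galerkin method in the basis of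
the Chebyshev polynomials `U_(2n)`.
-/

set_option autoImplicit false

namespace Pool.Agent.Results.MP_ae1fc5_gt.GromovHausdorffInstability

open Pool.Agent.MP_ae1fc5_gt
open scoped Quaternion

theorem result : ∀ D δ : ℝ, 0 < δ → ∃ g : Field,
    IsMetric g ∧ (∀ x : ℍ[ℝ], ‖x‖ = 1 → 6 ≤ scal g x) ∧
    ((1 / 4 - δ : ℝ) : EReal) < maxTime g ∧ ENNReal.ofReal D ≤ dGH g roundMetric :=
  fun D δ hδ => Pool.Agent.RFq.main D δ hδ

end Pool.Agent.Results.MP_ae1fc5_gt.GromovHausdorffInstability
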